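import Pool.Agent.Work.MP_c9932b_sb.Interface

/-! Block DIF: finite difference formula with approximate residues. -/

set_option autoImplicit false

open Finset

namespace Pool.SBM.helper45

/-- Pascal -/
theorem pascal {F : Type*} [CommRing F] (n : ℕ) (f : ℕ → F) :
    ∑ i ∈ range (n + 2), (-1) ^ i * ((n + 1).choose i : F) * f i =
      ∑ i ∈ range (n + 1), (-1) ^ i * (n.choose i : F) * f i
        - ∑ i ∈ range (n + 1), (-1) ^ i * (n.choose i : F) * f (i + 1) := by
  have h1 : ∑ i ∈ range (n + 1), (-1) ^ i * (n.choose i : F) * f i =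
      ∑ i ∈ range (n + 2), (-1) ^ i * (n.choose i : F) * f i := by
    rw [sum_range_succ _ (n + 1), Nat.choose_succ_self]
    simp
  rw [h1, sum_range_succ', sum_range_succ' (fun i => (-1) ^ i * (n.choose i : F) * f i) (n + 1)]
  simp only [Nat.choose_succ_succ, Nat.choose_zero_right, Nat.cast_add, pow_zero, Nat.cast_one,
    mul_one, one_mul]
  rw [add_sub_right_comm, ← sum_sub_distrib]
  congr 1
  refine sum_congr rfl fun i _ => ?_
  ring

/-- finite differences of the reciprocal -/
theorem recip {F : Type*} [Field F] (n : ℕ) : ∀ q : F, (∀ i : ℕ, q + i ≠ 0) →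
    ∑ i ∈ range (n + 1), (-1) ^ i * (n.choose i : F) * (q + i)⁻¹ =
      (n.factorial : F) / ∏ i ∈ range (n + 1), (q + (i : F)) := by
  induction n with
  | zero => intro q hq; simp
  | succ n ih =>
    intro q hq
    have hq1 : ∀ i : ℕ, q + 1 + i ≠ 0 := by
      intro i
      have := hq (i + 1)
      rw [Nat.cast_add, Nat.cast_one] at this
      rwa [add_assoc, add_comm 1 (i : F)]
    have h1 := pascal n (fun i => (q + i)⁻¹)
    have h2 : ∑ i ∈ range (n + 1), (-1) ^ i * (n.choose i : F) * (q + ((i + 1 : ℕ) : F))⁻¹ =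
        ∑ i ∈ range (n + 1), (-1) ^ i * (n.choose i : F) * (q + 1 + i)⁻¹ := by
      refine sum_congr rfl fun i _ => ?_
      rw [Nat.cast_add, Nat.cast_one, add_assoc, add_comm 1 (i : F)]
    rw [h1, h2, ih q hq, ih (q + 1) hq1]
    set P : F := ∏ i ∈ range n, (q + 1 + (i : F)) with hP
    have hP0 : P ≠ 0 := prod_ne_zero_iff.2 fun i _ => hq1 i
    have e1 : ∏ i ∈ range (n + 1), (q + (i : F)) = P * q := by
      rw [prod_range_succ']
      simp only [Nat.cast_zero, add_zero, Nat.cast_add, Nat.cast_one]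
      congr 1
      refine prod_congr rfl fun i _ => ?_
      ring
    have e2 : ∏ i ∈ range (n + 1), (q + 1 + (i : F)) = P * (q + 1 + n) := prod_range_succ _ _
    have e3 : ∏ i ∈ range (n + 1 + 1), (q + (i : F)) = P * (q + 1 + n) * q := by
      rw [prod_range_succ']
      simp only [Nat.cast_zero, add_zero, Nat.cast_add, Nat.cast_one]
      congr 1
      rw [← e2]
      refine prod_congr rfl fun i _ => ?_
      ring
    have hq0 : q ≠ 0 := by simpa using hq 0
    have hqn := hq1 n
    rw [e1, e2, e3, Nat.factorial_succ, Nat.cast_mul, Nat.cast_add, Nat.cast_one]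
    field_simp
    ring

/-- the identity without denominators -/
theorem fact_eq {R : Type} [CommRing R] [LinearOrder R] [IsStrictOrderedRing R] (K : ℕ) (q : R)
    (hq : 1 ≤ q) : (K.factorial : R) = ∑ i ∈ range (K + 1),
      (-1) ^ i * (K.choose i : R) * ∏ j ∈ (range (K + 1)).erase i, (q + (j : R)) := by
  have hpos : ∀ i : ℕ, 0 < q + i := fun i =>
    add_pos_of_pos_of_nonneg (lt_of_lt_of_le one_pos hq) (Nat.cast_nonneg _)
  let g := algebraMap R (FractionRing R)
  have hg : Function.Injective g := IsFractionRing.injective R (FractionRing R)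
  have hne : ∀ i : ℕ, g q + i ≠ 0 := by
    intro i h0
    have h1 : g (q + i) = g 0 := by rw [map_add, map_natCast, h0, map_zero]
    exact (hpos i).ne' (hg h1)
  have h2 := recip K (g q) hne
  have hP : ∏ i ∈ range (K + 1), (g q + (i : FractionRing R)) ≠ 0 :=
    prod_ne_zero_iff.2 fun i _ => hne i
  rw [eq_div_iff hP, sum_mul] at h2
  apply hg
  rw [map_natCast, ← h2, map_sum]
  refine sum_congr rfl fun i hi => ?_
  rw [map_mul, map_mul, map_pow, map_neg, map_one, map_natCast, map_prod, mul_assoc]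
  congr 1
  rw [← mul_prod_erase (range (K + 1)) (fun j : ℕ => g q + (j : FractionRing R)) hi,
    inv_mul_cancel_left₀ (hne i)]
  refine prod_congr rfl fun j _ => ?_
  rw [map_add, map_natCast]

theorem stmt_DIF : Stmt_DIF := by
  intro K W R _ _ _ q x y r s u w A B hq h
  have hpos : ∀ i : ℕ, 0 < q + i := fun i =>
    add_pos_of_pos_of_nonneg (lt_of_lt_of_le one_pos hq) (Nat.cast_nonneg _)
  set P : R := ∏ i ∈ range (K + 1), (q + (i : R)) with hP
  set Pe : ℕ → R := fun i => ∏ j ∈ (range (K + 1)).erase i, (q + (j : R)) with hPe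
  have hPe0 : ∀ i, 0 < Pe i := fun i => prod_pos fun j _ => hpos j
  have hPi : ∀ i ∈ range (K + 1), (q + i) * Pe i = P := fun i hi =>
    mul_prod_erase (range (K + 1)) (fun j : ℕ => q + (j : R)) hi
  refine ⟨∑ i ∈ range (K + 1), (-1) ^ i * (K.choose i : R) * (u i - w i), ?_⟩
  have hkey : (W : R) * (K.factorial : R) * (x - y)
      - P * ((W : R) * (∑ i ∈ range (K + 1), (-1) ^ i * (K.choose i : R) * (u i - w i))
        + ((SK K A B : ℤ) : R)) =
      ∑ i ∈ range (K + 1), (-1) ^ i * (K.choose i : R) *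
        (((W : R) * r i - A i * (q + i)) - ((W : R) * s i - B i * (q + i))) * Pe i := by
    rw [fact_eq K q hq, SK]
    push_cast
    rw [mul_add, mul_sum, mul_sum, mul_sum, mul_sum, sum_mul, ← sum_add_distrib,
      ← sum_sub_distrib]
    refine sum_congr rfl fun i hi => ?_
    obtain ⟨h1, h2, -⟩ := h i (Nat.lt_succ_iff.1 (mem_range.1 hi))
    have h3 : x - y = (q + i) * (u i - w i) + (r i - s i) := by rw [h1, h2]; ring
    rw [h3, ← hPi i hi]
    ring
  rw [hkey]
  have h2K : (2 : R) ^ K * P = ∑ i ∈ range (K + 1), (K.choose i : R) * P := by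
    rw [← sum_mul]
    congr 1
    have := Nat.sum_range_choose K
    have h4 : ((∑ i ∈ range (K + 1), K.choose i : ℕ) : R) = ((2 ^ K : ℕ) : R) := by rw [this]
    push_cast at h4
    exact h4.symm
  rw [h2K]
  refine (abs_sum_le_sum_abs _ _).trans (sum_le_sum fun i hi => ?_)
  obtain ⟨-, -, h3, h4, h5, h6⟩ := h i (Nat.lt_succ_iff.1 (mem_range.1 hi))
  rw [abs_mul, abs_mul, abs_mul, abs_pow, abs_neg, abs_one, one_pow, one_mul,
    abs_of_nonneg (Nat.cast_nonneg (α := R) (K.choose i)), abs_of_pos (hPe0 i), mul_assoc]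
  refine mul_le_mul_of_nonneg_left ?_ (Nat.cast_nonneg _)
  rw [← hPi i hi]
  refine mul_le_mul_of_nonneg_right ?_ (hPe0 i).le
  rw [abs_le]
  constructor
  · linarith
  · linarith

end Pool.SBM.helper45
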