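import Pool.Agent.Work.MP_c9932b_sb.Interface

/-! Block SLP: open formulas as straight line programs. -/

set_option autoImplicit false

open Finset

namespace Pool.SBM.helper45

/-- base conditions on a run -/
def Base {R : Type} [CommRing R] (n : ℕ) (v V : ℕ → R) : Prop :=
  V 0 = 0 ∧ V 1 = 1 ∧ (∀ i < 4 + n, V (2 + i) = v i) ∧ (∀ i, 4 + n ≤ i → v i = 0)

theorem IsRun.front {R : Type} [CommRing R] {n0 : ℕ} {pr pr' : List (ℕ × ℕ × ℕ)} {V : ℕ → R}
    (h : IsRun n0 (pr ++ pr') V) : IsRun n0 pr V := by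
  intro k hk
  have hk' : k < (pr ++ pr').length := by rw [List.length_append]; omega
  have h1 := h k hk'
  rw [List.getElem_append_left hk] at h1
  exact h1

/-- add one instruction -/
theorem WF.snoc {n0 : ℕ} {pr : List (ℕ × ℕ × ℕ)} (h : WF n0 pr) {a b c : ℕ}
    (ha : a < n0 + pr.length) (hb : b < n0 + pr.length) (hc : c < n0 + pr.length) :
    WF n0 (pr ++ [(a, b, c)]) := by
  intro k hk
  rw [List.length_append, List.length_singleton] at hk
  by_cases h1 : k < pr.length
  · rw [List.getElem_append_left h1]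
    exact h k h1
  · have h2 : k = pr.length := by omega
    subst h2
    rw [List.getElem_append_right (le_refl _)]
    simp only [Nat.sub_self, List.getElem_cons_zero]
    exact ⟨ha, hb, hc⟩

theorem IsRun.last {R : Type} [CommRing R] {n0 : ℕ} {pr : List (ℕ × ℕ × ℕ)} {a b c : ℕ}
    {V : ℕ → R} (h : IsRun n0 (pr ++ [(a, b, c)]) V) :
    V (n0 + pr.length) = V a * V b + V c := by
  have hk' : pr.length < (pr ++ [(a, b, c)]).length := by
    rw [List.length_append, List.length_singleton]; omega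
  have h1 := h pr.length hk'
  rw [List.getElem_append_right (le_refl _)] at h1
  simpa only [Nat.sub_self, List.getElem_cons_zero] using h1

/-- terms are computed by programs -/
theorem term_prog (n : ℕ) (s : Tm) : ∀ pr : List (ℕ × ℕ × ℕ), WF (6 + n) pr →
    ∃ pr' : List (ℕ × ℕ × ℕ), WF (6 + n) (pr ++ pr') ∧ ∃ k < 6 + n + (pr ++ pr').length,
      ∀ (R : Type) [CommRing R], ∀ v V : ℕ → R, Base n v V → IsRun (6 + n) (pr ++ pr') V →
        V k = s.eval v := by
  induction s with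
  | var i =>
    intro pr hpr
    refine ⟨[], by rwa [List.append_nil], ?_⟩
    by_cases hi : i < 4 + n
    · exact ⟨2 + i, by omega, fun R _ v V hb _ => hb.2.2.1 i hi⟩
    · refine ⟨0, by omega, fun R _ v V hb _ => ?_⟩
      rw [hb.1, Tm.eval_var, hb.2.2.2 i (by omega)]
  | zero =>
    intro pr hpr
    exact ⟨[], by rwa [List.append_nil], 0, by omega, fun R _ v V hb _ => hb.1⟩
  | one =>
    intro pr hpr
    exact ⟨[], by rwa [List.append_nil], 1, by omega, fun R _ v V hb _ => hb.2.1⟩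
  | add s t hs ht =>
    intro pr hpr
    obtain ⟨p1, w1, k1, l1, e1⟩ := hs pr hpr
    obtain ⟨p2, w2, k2, l2, e2⟩ := ht _ w1
    have hlen : (pr ++ p1 ++ p2).length = (pr ++ p1).length + p2.length := List.length_append
    refine ⟨p1 ++ p2 ++ [(k1, 1, k2)], ?_, 6 + n + (pr ++ p1 ++ p2).length, ?_, ?_⟩
    · have h1 := WF.snoc w2 (a := k1) (b := 1) (c := k2) (by omega) (by omega) l2
      simpa only [List.append_assoc] using h1
    · simp only [List.length_append, List.length_singleton]; omega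
    · intro R _ v V hb hr
      have hr' : IsRun (6 + n) (pr ++ p1 ++ p2 ++ [(k1, 1, k2)]) V := by
        simpa only [List.append_assoc] using hr
      have h2 := IsRun.front hr'
      rw [IsRun.last hr', e1 R v V hb (IsRun.front h2), e2 R v V hb h2, hb.2.1, mul_one]
      rfl
  | mul s t hs ht =>
    intro pr hpr
    obtain ⟨p1, w1, k1, l1, e1⟩ := hs pr hpr
    obtain ⟨p2, w2, k2, l2, e2⟩ := ht _ w1
    have hlen : (pr ++ p1 ++ p2).length = (pr ++ p1).length + p2.length := List.length_append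
    refine ⟨p1 ++ p2 ++ [(k1, k2, 0)], ?_, 6 + n + (pr ++ p1 ++ p2).length, ?_, ?_⟩
    · have h1 := WF.snoc w2 (a := k1) (b := k2) (c := 0) (by omega) l2 (by omega)
      simpa only [List.append_assoc] using h1
    · simp only [List.length_append, List.length_singleton]; omega
    · intro R _ v V hb hr
      have hr' : IsRun (6 + n) (pr ++ p1 ++ p2 ++ [(k1, k2, 0)]) V := by
        simpa only [List.append_assoc] using hr
      have h2 := IsRun.front hr'
      rw [IsRun.last hr', e1 R v V hb (IsRun.front h2), e2 R v V hb h2, hb.1, add_zero]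
      rfl

/-- truth of a disjunctive normal form -/
def Dnf {R : Type} [LT R] (V : ℕ → R) (L : List (List (ℕ × ℕ))) : Prop :=
  ∃ c ∈ L, ∀ p ∈ c, V p.2 < V p.1

/-- all nodes of a disjunctive normal form are below `m` -/
def Bdd (m : ℕ) (L : List (List (ℕ × ℕ))) : Prop := ∀ c ∈ L, ∀ p ∈ c, p.1 < m ∧ p.2 < m

theorem Bdd.mono {m m' : ℕ} {L : List (List (ℕ × ℕ))} (h : Bdd m L) (hm : m ≤ m') : Bdd m' L :=
  fun c hc p hp => ⟨(h c hc p hp).1.trans_le hm, (h c hc p hp).2.trans_le hm⟩

def prod (L L' : List (List (ℕ × ℕ))) : List (List (ℕ × ℕ)) :=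
  L.flatMap fun c => L'.map fun c' => c ++ c'

theorem dnf_prod {R : Type} [LT R] (V : ℕ → R) (L L' : List (List (ℕ × ℕ))) :
    Dnf V (prod L L') ↔ Dnf V L ∧ Dnf V L' := by
  constructor
  · rintro ⟨c, hc, h⟩
    simp only [prod, List.mem_flatMap, List.mem_map] at hc
    obtain ⟨c1, h1, c2, h2, rfl⟩ := hc
    exact ⟨⟨c1, h1, fun p hp => h p (List.mem_append_left _ hp)⟩,
      ⟨c2, h2, fun p hp => h p (List.mem_append_right _ hp)⟩⟩
  · rintro ⟨⟨c1, h1, e1⟩, ⟨c2, h2, e2⟩⟩
    refine ⟨c1 ++ c2, ?_, ?_⟩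
    · simp only [prod, List.mem_flatMap, List.mem_map]
      exact ⟨c1, h1, c2, h2, rfl⟩
    · intro p hp
      rcases List.mem_append.1 hp with h | h
      · exact e1 p h
      · exact e2 p h

theorem bdd_prod {m : ℕ} {L L' : List (List (ℕ × ℕ))} (h : Bdd m L) (h' : Bdd m L') :
    Bdd m (prod L L') := by
  intro c hc p hp
  simp only [prod, List.mem_flatMap, List.mem_map] at hc
  obtain ⟨c1, h1, c2, h2, rfl⟩ := hc
  rcases List.mem_append.1 hp with h3 | h3
  · exact h c1 h1 p h3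
  · exact h' c2 h2 p h3

theorem dnf_append {R : Type} [LT R] (V : ℕ → R) (L L' : List (List (ℕ × ℕ))) :
    Dnf V (L ++ L') ↔ Dnf V L ∨ Dnf V L' := by
  constructor
  · rintro ⟨c, hc, h⟩
    rcases List.mem_append.1 hc with h1 | h1
    · exact Or.inl ⟨c, h1, h⟩
    · exact Or.inr ⟨c, h1, h⟩
  · rintro (⟨c, hc, h⟩ | ⟨c, hc, h⟩)
    · exact ⟨c, List.mem_append_left _ hc, h⟩
    · exact ⟨c, List.mem_append_right _ hc, h⟩

theorem bdd_append {m : ℕ} {L L' : List (List (ℕ × ℕ))} (h : Bdd m L) (h' : Bdd m L') :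
    Bdd m (L ++ L') := by
  intro c hc
  rcases List.mem_append.1 hc with h1 | h1
  · exact h c h1
  · exact h' c h1

theorem dnf_one {R : Type} [LT R] (V : ℕ → R) (a b : ℕ) : Dnf V [[(a, b)]] ↔ V b < V a := by
  simp [Dnf]

theorem bdd_one {m a b : ℕ} (ha : a < m) (hb : b < m) : Bdd m [[(a, b)]] := by
  intro c hc p hp
  rw [List.mem_singleton] at hc
  subst hc
  rw [List.mem_singleton] at hp
  subst hp
  exact ⟨ha, hb⟩

theorem lt_succ {R : Type} [CommRing R] [LinearOrder R] [IsStrictOrderedRing R]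
    (disc : ∀ x : R, 0 < x → 1 ≤ x) (a b : R) : a < b + 1 ↔ a ≤ b := by
  constructor
  · intro h
    by_contra h1
    have h2 := disc (a - b) (sub_pos.2 (not_le.1 h1))
    linarith
  · intro h
    linarith

/-- the statement for a formula -/
def Good (n : ℕ) (φ : Opn) : Prop :=
  ∀ pr : List (ℕ × ℕ × ℕ), WF (6 + n) pr →
    ∃ (pr' : List (ℕ × ℕ × ℕ)) (L L' : List (List (ℕ × ℕ))), WF (6 + n) (pr ++ pr') ∧
      Bdd (6 + n + (pr ++ pr').length) L ∧ Bdd (6 + n + (pr ++ pr').length) L' ∧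
      ∀ (R : Type) [CommRing R] [LinearOrder R] [IsStrictOrderedRing R],
        (∀ x : R, 0 < x → 1 ≤ x) → ∀ v V : ℕ → R, Base n v V → IsRun (6 + n) (pr ++ pr') V →
          (φ.eval v ↔ Dnf V L) ∧ (¬ φ.eval v ↔ Dnf V L')

/-- two terms and their successors -/
theorem two_terms (n : ℕ) (s t : Tm) (pr : List (ℕ × ℕ × ℕ)) (hpr : WF (6 + n) pr) :
    ∃ pr' : List (ℕ × ℕ × ℕ), WF (6 + n) (pr ++ pr') ∧ ∃ a b a' b' : ℕ,
      a < 6 + n + (pr ++ pr').length ∧ b < 6 + n + (pr ++ pr').length ∧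
      a' < 6 + n + (pr ++ pr').length ∧ b' < 6 + n + (pr ++ pr').length ∧
      ∀ (R : Type) [CommRing R], ∀ v V : ℕ → R, Base n v V → IsRun (6 + n) (pr ++ pr') V →
        V a = s.eval v ∧ V b = t.eval v ∧ V a' = s.eval v + 1 ∧ V b' = t.eval v + 1 := by
  obtain ⟨p1, w1, a, la, ea⟩ := term_prog n s pr hpr
  obtain ⟨p2, w2, b, lb, eb⟩ := term_prog n t _ w1
  obtain ⟨p3, w3, a', la', ea'⟩ := term_prog n (.add s .one) _ w2
  obtain ⟨p4, w4, b', lb', eb'⟩ := term_prog n (.add t .one) _ w3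
  refine ⟨p1 ++ p2 ++ p3 ++ p4, ?_, a, b, a', b', ?_, ?_, ?_, ?_, ?_⟩
  · simpa only [List.append_assoc] using w4
  · simp only [List.length_append] at la ⊢; omega
  · simp only [List.length_append] at lb ⊢; omega
  · simp only [List.length_append] at la' ⊢; omega
  · simp only [List.length_append] at lb' ⊢; omega
  · intro R _ v V hb hr
    have hr' : IsRun (6 + n) (pr ++ p1 ++ p2 ++ p3 ++ p4) V := by
      simpa only [List.append_assoc] using hr
    have h3 := IsRun.front hr'
    have h2 := IsRun.front h3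
    have h1 := IsRun.front h2
    exact ⟨ea R v V hb h1, eb R v V hb h2, ea' R v V hb h3, eb' R v V hb hr'⟩

theorem good (n : ℕ) (φ : Opn) : Good n φ := by
  induction φ with
  | eq s t =>
    intro pr hpr
    obtain ⟨pr', w, a, b, a', b', ha, hb, ha', hb', e⟩ := two_terms n s t pr hpr
    refine ⟨pr', prod [[(b', a)]] [[(a', b)]], [[(b, a)]] ++ [[(a, b)]], w,
      bdd_prod (bdd_one hb' ha) (bdd_one ha' hb), bdd_append (bdd_one hb ha) (bdd_one ha hb), ?_⟩
    intro R _ _ _ disc v V hB hr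
    obtain ⟨e1, e2, e3, e4⟩ := e R v V hB hr
    rw [dnf_prod, dnf_one, dnf_one, dnf_append, dnf_one, dnf_one, e1, e2, e3, e4,
      lt_succ disc, lt_succ disc, Opn.eval_eq]
    exact ⟨le_antisymm_iff, lt_or_lt_iff_ne.symm⟩
  | le s t =>
    intro pr hpr
    obtain ⟨pr', w, a, b, a', b', ha, hb, ha', hb', e⟩ := two_terms n s t pr hpr
    refine ⟨pr', [[(b', a)]], [[(a, b)]], w, bdd_one hb' ha, bdd_one ha hb, ?_⟩
    intro R _ _ _ disc v V hB hr
    obtain ⟨e1, e2, e3, e4⟩ := e R v V hB hr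
    rw [dnf_one, dnf_one, e1, e2, e4, lt_succ disc, Opn.eval_le]
    exact ⟨Iff.rfl, not_le⟩
  | neg φ ih =>
    intro pr hpr
    obtain ⟨pr', L, L', w, b1, b2, e⟩ := ih pr hpr
    refine ⟨pr', L', L, w, b2, b1, ?_⟩
    intro R _ _ _ disc v V hB hr
    obtain ⟨e1, e2⟩ := e R disc v V hB hr
    rw [Opn.eval_neg, not_not]
    exact ⟨e2, e1⟩
  | and φ ψ ih1 ih2 =>
    intro pr hpr
    obtain ⟨p1, L1, L1', w1, b1, b1', e1⟩ := ih1 pr hpr
    obtain ⟨p2, L2, L2', w2, b2, b2', e2⟩ := ih2 _ w1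
    have hlen : 6 + n + (pr ++ p1).length ≤ 6 + n + (pr ++ p1 ++ p2).length := by
      rw [List.length_append (as := pr ++ p1)]; omega
    refine ⟨p1 ++ p2, prod L1 L2, L1' ++ L2', ?_, ?_, ?_, ?_⟩
    · rwa [← List.append_assoc]
    · rw [← List.append_assoc]
      exact bdd_prod (b1.mono hlen) b2
    · rw [← List.append_assoc]
      exact bdd_append (b1'.mono hlen) b2'
    · intro R _ _ _ disc v V hB hr
      rw [← List.append_assoc] at hr
      obtain ⟨f1, f2⟩ := e1 R disc v V hB (IsRun.front hr)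
      obtain ⟨f3, f4⟩ := e2 R disc v V hB hr
      rw [dnf_prod, dnf_append, Opn.eval_and, ← f1, ← f2, ← f3, ← f4]
      refine ⟨Iff.rfl, ?_⟩
      tauto

theorem stmt_SLP : Stmt_SLP := by
  intro n φ
  have w0 : WF (6 + n) [] := fun k hk => absurd hk (Nat.not_lt_zero k)
  obtain ⟨pr, L, L', w, bL, -, e⟩ := good n φ [] w0
  rw [List.nil_append] at w bL e
  set J : ℕ := (L.map List.length).sum + 1 with hJ
  have hJc : ∀ c ∈ L, c.length < J := by
    intro c hc
    have := List.single_le_sum (fun _ _ => Nat.zero_le _) c.length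
      (List.mem_map.2 ⟨c, hc, rfl⟩)
    omega
  have hent : ∀ k, (((L.getD (k / J) []).getD (k % J) (1, 0)).1 < 6 + n + pr.length) ∧
      (((L.getD (k / J) []).getD (k % J) (1, 0)).2 < 6 + n + pr.length) := by
    intro k
    by_cases h1 : k / J < L.length
    · rw [List.getD_eq_getElem _ _ h1]
      by_cases h2 : k % J < (L[k / J]).length
      · rw [List.getD_eq_getElem _ _ h2]
        exact bL _ (List.getElem_mem h1) _ (List.getElem_mem h2)
      · rw [List.getD_eq_default _ _ (not_lt.1 h2)]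
        constructor
        · change 1 < _; omega
        · change 0 < _; omega
    · rw [List.getD_eq_default _ _ (not_lt.1 h1)]
      rw [List.getD_nil]
      constructor
      · change 1 < _; omega
      · change 0 < _; omega
  refine ⟨pr, L.length, J, fun k => ((L.getD (k / J) []).getD (k % J) (1, 0)).1,
    fun k => ((L.getD (k / J) []).getD (k % J) (1, 0)).2, w, hent, ?_⟩
  intro R _ _ _ disc v V h0 h1 h2 h3 hr
  have h := (e R disc v V ⟨h0, h1, h2, h3⟩ hr).1
  rw [h]
  have hidx : ∀ i j, j < J → (i * J + j) / J = i ∧ (i * J + j) % J = j := by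
    intro i j hj
    constructor
    · rw [mul_comm, Nat.mul_add_div (by omega), Nat.div_eq_of_lt hj, add_zero]
    · rw [mul_comm, Nat.mul_add_mod, Nat.mod_eq_of_lt hj]
  constructor
  · rintro ⟨c, hc, hp⟩
    obtain ⟨i, hi, rfl⟩ := List.getElem_of_mem hc
    refine ⟨i, hi, fun j hj => ?_⟩
    change V (((L.getD ((i * J + j) / J) []).getD ((i * J + j) % J) (1, 0)).2) <
      V (((L.getD ((i * J + j) / J) []).getD ((i * J + j) % J) (1, 0)).1)
    rw [(hidx i j hj).1, (hidx i j hj).2, List.getD_eq_getElem _ _ hi]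
    by_cases h4 : j < (L[i]).length
    · rw [List.getD_eq_getElem _ _ h4]
      exact hp _ (List.getElem_mem h4)
    · rw [List.getD_eq_default _ _ (not_lt.1 h4)]
      change V 0 < V 1
      rw [h0, h1]
      exact one_pos
  · rintro ⟨i, hi, hp⟩
    refine ⟨L[i], List.getElem_mem hi, fun p hpm => ?_⟩
    obtain ⟨j, hj, rfl⟩ := List.getElem_of_mem hpm
    have hjJ : j < J := hj.trans (hJc _ (List.getElem_mem hi))
    have h5 := hp j hjJ
    change V (((L.getD ((i * J + j) / J) []).getD ((i * J + j) % J) (1, 0)).2) <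
      V (((L.getD ((i * J + j) / J) []).getD ((i * J + j) % J) (1, 0)).1) at h5
    rw [(hidx i j hjJ).1, (hidx i j hjJ).2, List.getD_eq_getElem _ _ hi,
      List.getD_eq_getElem _ _ hj] at h5
    exact h5

end Pool.SBM.helper45
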